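import Pool.Agent.U136.DX.Stm3

set_option autoImplicit false

/-! Project DX, package DSP (helper397): derivatives are combinations of integer translates. -/

namespace Pool.Agent.U397.DX

open MvPolynomial Pool.Agent.N983.RT Pool.Agent.U136.DX
open Finset hiding box

/-- Lagrange interpolation of the derivative -/
lemma lag (D : ℕ) : ∃ w : ℕ → ℝ, (∑ j ∈ range (D + 1), w j = 0) ∧
    ∀ q : Polynomial ℝ, q.natDegree ≤ D → ∀ t : ℝ,
      q.derivative.eval t = ∑ j ∈ range (D + 1), w j * q.eval (t + j) := by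
  have main : ∀ q : Polynomial ℝ, q.natDegree ≤ D → ∀ t : ℝ, q.derivative.eval t =
      ∑ j ∈ range (D + 1), (Lagrange.basis (range (D + 1)) (fun j : ℕ => (j : ℝ)) j).derivative.eval 0
        * q.eval (t + j) := by
    intro q hq t
    obtain ⟨Q, hQ⟩ : ∃ Q, Q = q.comp (Polynomial.X + Polynomial.C t) := ⟨_, rfl⟩
    have hdeg : Q.degree < ((range (D + 1)).card : WithBot ℕ) := by
      rw [card_range]
      have h1 : Q.natDegree ≤ D := by
        rw [hQ, Polynomial.natDegree_comp]
        simpa using hq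
      exact (Polynomial.degree_le_natDegree).trans_lt (by exact_mod_cast Nat.lt_succ_of_le h1)
    have h2 := Lagrange.eq_interpolate (s := range (D + 1)) (v := fun j : ℕ => (j : ℝ))
      (f := Q) (by intro a _ b _ h; exact Nat.cast_injective (R := ℝ) h) hdeg
    have h3 : Q.derivative.eval 0 = q.derivative.eval t := by
      rw [hQ, Polynomial.derivative_comp]
      simp
    rw [← h3, h2, Lagrange.interpolate_apply]
    simp only [Polynomial.derivative_sum, Polynomial.eval_finsetSum, Polynomial.derivative_C_mul,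
      Polynomial.eval_mul, Polynomial.eval_C]
    refine Finset.sum_congr rfl fun j _ => ?_
    rw [mul_comm]
    congr 1
    rw [hQ]
    simp [add_comm]
  refine ⟨_, ?_, main⟩
  have := main 1 (by simp) 0
  simpa using this.symm

lemma ev_monomial (s : Fin 3 →₀ ℕ) (a : ℝ) (x : Wv) :
    ev (monomial s a) x = a * ∏ k, (x k : ℝ) ^ s k := by
  unfold ev
  rw [eval_monomial, Finsupp.prod_fintype _ _ (by simp)]

/-- the derivative of a polynomial as a combination of integer translates -/
lemma der_shift (i : Fin 3) (R : MvPolynomial (Fin 3) ℝ) : ∃ (D : ℕ) (w : ℕ → ℝ),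
    (∑ j ∈ range (D + 1), w j = 0) ∧ ∀ x : Wv,
      ev (pderiv i R) x = ∑ j ∈ range (D + 1), w j * ev R (x + Pi.single i (j : ℤ)) := by
  obtain ⟨w, hw0, hw⟩ := lag (R.support.sup (fun s => s i))
  refine ⟨_, w, hw0, fun x => ?_⟩
  have key : ∀ s ∈ R.support, ev (pderiv i (monomial s (coeff s R))) x =
      ∑ j ∈ range (R.support.sup (fun s => s i) + 1), w j *
        ev (monomial s (coeff s R)) (x + Pi.single i (j : ℤ)) := by
    intro s hs
    have hsD : s i ≤ R.support.sup (fun s => s i) :=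
      Finset.le_sup (f := fun s : Fin 3 →₀ ℕ => s i) hs
    rw [pderiv_monomial, ev_monomial]
    simp only [ev_monomial]
    have h1 : ∀ j : ℕ, ∏ k, (((x + Pi.single i (j : ℤ) : Wv) k : ℤ) : ℝ) ^ s k =
        ((x i : ℝ) + j) ^ s i * ∏ k ∈ univ.erase i, (x k : ℝ) ^ s k := by
      intro j
      rw [← Finset.mul_prod_erase univ _ (mem_univ i)]
      congr 1
      · simp
      · refine Finset.prod_congr rfl fun k hk => ?_
        have : k ≠ i := Finset.ne_of_mem_erase hk
        simp [Pi.single_eq_of_ne this]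
    have h2 : ∏ k, (x k : ℝ) ^ (s - Finsupp.single i 1 : Fin 3 →₀ ℕ) k =
        (x i : ℝ) ^ (s i - 1) * ∏ k ∈ univ.erase i, (x k : ℝ) ^ s k := by
      rw [← Finset.mul_prod_erase univ _ (mem_univ i)]
      congr 1
      · simp
      · refine Finset.prod_congr rfl fun k hk => ?_
        have : k ≠ i := Finset.ne_of_mem_erase hk
        simp [Finsupp.single_eq_of_ne this]
    have h3 := hw (Polynomial.X ^ (s i)) (by simpa using hsD) (x i : ℝ)
    simp only [Polynomial.derivative_X_pow, Polynomial.eval_mul, Polynomial.eval_C,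
      Polynomial.eval_pow, Polynomial.eval_X] at h3
    rw [h2]
    simp only [h1]
    calc coeff s R * (s i : ℝ) * ((x i : ℝ) ^ (s i - 1) * ∏ k ∈ univ.erase i, (x k : ℝ) ^ s k)
        = ((s i : ℝ) * (x i : ℝ) ^ (s i - 1)) * (coeff s R * ∏ k ∈ univ.erase i, (x k : ℝ) ^ s k) := by
          ring
      _ = _ := by
          rw [h3, Finset.sum_mul]
          refine Finset.sum_congr rfl fun j _ => ?_
          ring
  have e1 : ev (pderiv i R) x = ∑ s ∈ R.support, ev (pderiv i (monomial s (coeff s R))) x := by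
    conv_lhs => rw [R.as_sum]
    rw [map_sum]
    unfold ev
    rw [map_sum]
  have e2 : ∀ y : Wv, ev R y = ∑ s ∈ R.support, ev (monomial s (coeff s R)) y := by
    intro y
    conv_lhs => rw [R.as_sum]
    unfold ev
    rw [map_sum]
  rw [e1, Finset.sum_congr rfl key, Finset.sum_comm]
  refine Finset.sum_congr rfl fun j _ => ?_
  rw [e2, Finset.mul_sum]

/-- the span of the differences of the translates of `ev P` by nonnegative vectors -/
def U (P : MvPolynomial (Fin 3) ℝ) : Submodule ℝ (Wv → ℝ) :=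
  Submodule.span ℝ {g | ∃ y y' : Wv, 0 ≤ y ∧ 0 ≤ y' ∧ g = fun x => ev P (x + y) - ev P (x + y')}

lemma U_shift {P : MvPolynomial (Fin 3) ℝ} (z : Wv) (hz : 0 ≤ z) {g : Wv → ℝ} (hg : g ∈ U P) :
    (fun x => g (x + z)) ∈ U P := by
  unfold U at hg ⊢
  induction hg using Submodule.span_induction with
  | mem g hg =>
    obtain ⟨y, y', hy, hy', rfl⟩ := hg
    refine Submodule.subset_span ⟨z + y, z + y', add_nonneg hz hy, add_nonneg hz hy', ?_⟩
    funext x
    simp only [add_assoc]
  | zero => exact Submodule.zero_mem _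
  | add a b _ _ ha hb => exact Submodule.add_mem _ ha hb
  | smul c a _ ha => exact Submodule.smul_mem _ c ha

lemma Der_mem (P : MvPolynomial (Fin 3) ℝ) : ∀ l : List (Fin 3), l ≠ [] →
    (fun x : Wv => ev (l.foldr (fun i R => pderiv i R) P) x) ∈ U P := by
  intro l
  induction l with
  | nil => intro h; exact absurd rfl h
  | cons i l ih =>
    intro _
    simp only [List.foldr_cons]
    obtain ⟨D, w, hw0, hw⟩ := der_shift i (l.foldr (fun i R => pderiv i R) P)
    have hs : ∀ j : ℕ, (0 : Wv) ≤ Pi.single i (j : ℤ) := fun j => by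
      rw [Pi.single_nonneg]; exact Int.natCast_nonneg j
    by_cases hl : l = []
    · subst hl
      simp only [List.foldr_nil] at hw ⊢
      have e1 : (fun x : Wv => ev (pderiv i P) x) = ∑ j ∈ range (D + 1), w j •
          (fun x : Wv => ev P (x + Pi.single i (j : ℤ)) - ev P (x + 0)) := by
        funext x
        rw [hw, Finset.sum_apply]
        simp only [Pi.smul_apply, smul_eq_mul, mul_sub, Finset.sum_sub_distrib]
        rw [← Finset.sum_mul, hw0, zero_mul, sub_zero]
      rw [e1]
      exact Submodule.sum_mem _ fun j _ => Submodule.smul_mem _ _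
        (Submodule.subset_span ⟨_, 0, hs j, le_refl _, rfl⟩)
    · have e1 : (fun x : Wv => ev (pderiv i (l.foldr (fun i R => pderiv i R) P)) x) =
          ∑ j ∈ range (D + 1), w j •
          (fun x : Wv => (fun x : Wv => ev (l.foldr (fun i R => pderiv i R) P) x)
            (x + Pi.single i (j : ℤ))) := by
        funext x
        rw [hw, Finset.sum_apply]
        simp only [Pi.smul_apply, smul_eq_mul]
      rw [e1]
      exact Submodule.sum_mem _ fun j _ => Submodule.smul_mem _ _ (U_shift _ (hs j) (ih hl))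

lemma mem_box {N : ℕ} {y : Wv} : y ∈ box N ↔ ∀ i, 0 ≤ y i ∧ y i ≤ N := by
  simp [box, Fintype.mem_piFinset]

/-- enlarging the box -/
lemma enlarge {P : MvPolynomial (Fin 3) ℝ} {f : Wv → ℝ} {N : ℕ} {c : Wv → ℝ}
    (h0 : ∑ y ∈ box N, c y = 0) (h1 : ∀ x : Wv, f x = ∑ y ∈ box N, c y * ev P (x + y)) {M : ℕ}
    (hM : N ≤ M) : ∃ c' : Wv → ℝ, ∑ y ∈ box M, c' y = 0 ∧
      ∀ x : Wv, f x = ∑ y ∈ box M, c' y * ev P (x + y) := by
  classical
  have hsub : box N ⊆ box M := by
    intro y hy
    rw [mem_box] at hy ⊢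
    intro i
    have := hy i
    exact ⟨this.1, this.2.trans (by exact_mod_cast hM)⟩
  refine ⟨fun y => if y ∈ box N then c y else 0, ?_, fun x => ?_⟩
  · have e1 : ∑ y ∈ box M, (if y ∈ box N then c y else 0) =
        ∑ y ∈ box N, (if y ∈ box N then c y else 0) :=
      (Finset.sum_subset hsub (fun y _ hy => if_neg hy)).symm
    rw [e1, ← h0]
    exact Finset.sum_congr rfl fun y hy => if_pos hy
  · have e1 : ∑ y ∈ box M, (if y ∈ box N then c y else 0) * ev P (x + y) =
        ∑ y ∈ box N, (if y ∈ box N then c y else 0) * ev P (x + y) :=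
      (Finset.sum_subset hsub (fun y _ hy => by rw [if_neg hy, zero_mul])).symm
    rw [h1, e1]
    exact Finset.sum_congr rfl fun y hy => by rw [if_pos hy]

lemma U_rep {P : MvPolynomial (Fin 3) ℝ} {g : Wv → ℝ} (hg : g ∈ U P) :
    ∃ (N : ℕ) (c : Wv → ℝ), ∑ y ∈ box N, c y = 0 ∧ ∀ x : Wv, g x = ∑ y ∈ box N, c y * ev P (x + y) := by
  classical
  unfold U at hg
  induction hg using Submodule.span_induction with
  | mem g hg =>
    obtain ⟨y, y', hy, hy', rfl⟩ := hg
    obtain ⟨N, hN, hN'⟩ : ∃ N : ℕ, y ∈ box N ∧ y' ∈ box N := by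
      refine ⟨∑ i, ((y i).toNat + (y' i).toNat), ?_, ?_⟩
      · rw [mem_box]
        intro i
        refine ⟨hy i, ?_⟩
        have h1 : (y i).toNat + (y' i).toNat ≤ ∑ i, ((y i).toNat + (y' i).toNat) :=
          Finset.single_le_sum (f := fun i => (y i).toNat + (y' i).toNat)
            (fun _ _ => Nat.zero_le _) (mem_univ i)
        have h2 := hy i
        simp only [Pi.zero_apply] at h2
        omega
      · rw [mem_box]
        intro i
        refine ⟨hy' i, ?_⟩
        have h1 : (y i).toNat + (y' i).toNat ≤ ∑ i, ((y i).toNat + (y' i).toNat) :=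
          Finset.single_le_sum (f := fun i => (y i).toNat + (y' i).toNat)
            (fun _ _ => Nat.zero_le _) (mem_univ i)
        have h2 := hy' i
        simp only [Pi.zero_apply] at h2
        omega
    refine ⟨N, fun u => (if u = y then 1 else 0) - (if u = y' then 1 else 0), ?_, fun x => ?_⟩
    · rw [Finset.sum_sub_distrib, Finset.sum_ite_eq', Finset.sum_ite_eq', if_pos hN, if_pos hN', sub_self]
    · simp only [sub_mul, ite_mul, one_mul, zero_mul, Finset.sum_sub_distrib]
      rw [Finset.sum_ite_eq', Finset.sum_ite_eq', if_pos hN, if_pos hN']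
  | zero => exact ⟨0, 0, by simp, fun x => by simp⟩
  | add a b _ _ ha hb =>
    obtain ⟨N, c, h0, h1⟩ := ha
    obtain ⟨N', c', h0', h1'⟩ := hb
    obtain ⟨d, hd0, hd1⟩ := enlarge h0 h1 (Nat.le_add_right N N')
    obtain ⟨d', hd0', hd1'⟩ := enlarge h0' h1' (Nat.le_add_left N' N)
    refine ⟨N + N', fun y => d y + d' y, ?_, fun x => ?_⟩
    · rw [Finset.sum_add_distrib, hd0, hd0', add_zero]
    · simp only [Pi.add_apply, add_mul, Finset.sum_add_distrib]
      rw [hd1, hd1']
  | smul r a _ ha =>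
    obtain ⟨N, c, h0, h1⟩ := ha
    refine ⟨N, fun y => r * c y, ?_, fun x => ?_⟩
    · rw [← Finset.mul_sum, h0, mul_zero]
    · rw [Pi.smul_apply, smul_eq_mul, h1, Finset.mul_sum]
      exact Finset.sum_congr rfl fun y _ => by ring

/-- `ev` as a linear map -/
noncomputable def evL : MvPolynomial (Fin 3) ℝ →ₗ[ℝ] (Wv → ℝ) where
  toFun P := fun x => ev P x
  map_add' P Q := by funext x; simp [ev]
  map_smul' c P := by funext x; simp [ev]

theorem t_DSP : S_DSP := by
  classical
  intro P hP
  have h1 : ∀ Q ∈ Submodule.span ℝ (Der P), (fun x : Wv => ev Q x) ∈ U P := by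
    intro Q hQ
    have h2 : Submodule.span ℝ (Der P) ≤ (U P).comap evL := by
      rw [Submodule.span_le]
      rintro R ⟨l, hl, rfl⟩
      exact Der_mem P l hl
    exact h2 hQ
  have h2 : ∀ β : Fin 3 → ℕ, ∃ (N : ℕ) (c : Wv → ℝ), ∑ i, β i = 5 → (∑ y ∈ box N, c y = 0 ∧
      ∀ x : Wv, ∏ i, (x i : ℝ) ^ β i = ∑ y ∈ box N, c y * ev P (x + y)) := by
    intro β
    by_cases hβ : ∑ i, β i = 5
    · obtain ⟨N, c, h3, h4⟩ := U_rep (h1 _ (hP β hβ))
      refine ⟨N, c, fun _ => ⟨h3, fun x => ?_⟩⟩
      rw [← h4]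
      simp [ev, map_prod]
    · exact ⟨0, 0, fun h => absurd h hβ⟩
  choose N c h3 using h2
  refine ⟨∑ β ∈ Fintype.piFinset (fun _ : Fin 3 => range 6), N β, fun β hβ => ?_⟩
  have hβm : β ∈ Fintype.piFinset (fun _ : Fin 3 => range 6) := by
    rw [Fintype.mem_piFinset]
    intro i
    rw [Finset.mem_range]
    have : β i ≤ ∑ i, β i := Finset.single_le_sum (fun _ _ => Nat.zero_le _) (mem_univ i)
    omega
  have hle : N β ≤ ∑ β ∈ Fintype.piFinset (fun _ : Fin 3 => range 6), N β :=
    Finset.single_le_sum (f := fun β => N β) (fun _ _ => Nat.zero_le _) hβm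
  exact enlarge (f := fun x => ∏ i, (x i : ℝ) ^ β i) (h3 β hβ).1 (h3 β hβ).2 hle

end Pool.Agent.U397.DX
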